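import Mathlib

set_option autoImplicit false

/-!
# LQ: list edge colouring by exact random stars

Definitions and statements (`ST_X`) of all modules. Blueprint: `/team-store/lq_blueprint.md`.

`R` = rows (light vertices), `Γ` = colours, `X : R → Γ → ℝ` the weights (`X r γ = 0` iff colour `γ`
is used at `r`), a *partial map* `f : R → Option Γ` colours the edges of one star.
-/

namespace Pool.Agent.Helper21.LQ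

open Finset

/-- A probability distribution on a finite type. -/
def IsDist {A : Type} [Fintype A] (p : A → ℝ) : Prop := (∀ a, 0 ≤ p a) ∧ ∑ a, p a = 1

section
variable {R Γ : Type} [Fintype R] [DecidableEq R] [Fintype Γ] [DecidableEq Γ]

/-- The distribution `p` on partial maps has the one-point marginals `y`. -/
def Marg (p : (R → Option Γ) → ℝ) (y : R → Γ → ℝ) : Prop :=
  ∀ r γ, ∑ f : R → Option Γ, (if f r = some γ then p f else 0) = y r γ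

/-- The partial map `f` uses every colour at most once. -/
def Inj (f : R → Option Γ) : Prop := ∀ r r' γ, f r = some γ → f r' = some γ → r = r'

/-- The weights after a step with outcome `f` and marginals `y`. -/
noncomputable def post (X y : R → Γ → ℝ) (f : R → Option Γ) : R → Γ → ℝ :=
  fun r γ => if f r = some γ then 0 else X r γ / (1 - y r γ)

/-- Linear statistic. -/
noncomputable def lin (a X : R → Γ → ℝ) : ℝ := ∑ r, ∑ γ, a r γ * X r γ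

/-- Covariance statistic of two colours over the rows `N`. -/
noncomputable def cov (N : Finset R) (γ γ' : Γ) (X : R → Γ → ℝ) : ℝ :=
  ∑ r ∈ N, (X r γ - 1) * (X r γ' - 1)

/-- Edge statistic of two rows over the colours `K`. -/
noncomputable def edg (v w : R) (K : Finset Γ) (X : R → Γ → ℝ) : ℝ := ∑ γ ∈ K, X v γ * X w γ

/-- General bilinear statistic. -/
noncomputable def bil {Q : Type} [Fintype Q] (c₁ c₂ : Q → R × Γ) (κ : ℝ) (X : R → Γ → ℝ) : ℝ :=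
  ∑ q, (X (c₁ q).1 (c₁ q).2 - κ) * (X (c₂ q).1 (c₂ q).2 - κ)

/-- A legal random choice for one star: marginals `y`, distribution `p`. -/
structure Choice (X : R → Γ → ℝ) (c D : ℝ) (C : R → Finset Γ)
    (Good : (R → Option Γ) → Prop) (y : R → Γ → ℝ) (p : (R → Option Γ) → ℝ) : Prop where
  dist : IsDist p
  marg : Marg p y
  inj : ∀ f, p f ≠ 0 → Inj f
  good : ∀ f, p f ≠ 0 → Good f
  nonneg : ∀ r γ, 0 ≤ y r γ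
  le : ∀ r γ, y r γ ≤ c * X r γ / D
  supp : ∀ r γ, γ ∉ C r → y r γ = 0

/-- Number of rows of `N` whose list contains `γ`. -/
def nn (N : Finset R) (L : R → Finset Γ) (γ : Γ) : ℕ := (N.filter (fun r => γ ∈ L r)).card

/-- Sum of the weights in column `γ` over the rows of `N` whose list contains `γ`. -/
noncomputable def colS (N : Finset R) (L : R → Finset Γ) (X : R → Γ → ℝ) (γ : Γ) : ℝ :=
  ∑ r ∈ N.filter (fun r => γ ∈ L r), X r γ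

/-- The accuracy of all statistics. -/
noncomputable def dl (ε : ℝ) : ℝ := ε ^ 10 / 2 ^ 68

/-- The full colours of a star: empty if the star has less than `(1 - ε²/1024) D` rows. -/
noncomputable def Full (ε : ℝ) (N : Finset R) (D : ℕ) (L : R → Finset Γ) : Finset Γ := by
  classical
  exact if (N.card : ℝ) < (1 - ε ^ 2 / 1024) * D then ∅
    else univ.filter (fun γ => (1 - ε ^ 2 / 64) * D ≤ (nn N L γ : ℝ))

/-- Type P: nearly `D` rows, a little more rows than full colours. -/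
def IsP (ε : ℝ) (N : Finset R) (D : ℕ) (L : R → Finset Γ) : Prop :=
  (1 - ε ^ 2 / 1024) * D ≤ (N.card : ℝ) ∧ (Full ε N D L).card < N.card ∧
    ((N.card : ℝ) - (Full ε N D L).card) < ε ^ 3 / 2 ^ 17 * D

/-- The number of rows coloured in the first phase. -/
noncomputable def hh (ε : ℝ) (N : Finset R) (D : ℕ) (L : R → Finset Γ) : ℕ := by
  classical
  exact if IsP ε N D L then N.card - (Full ε N D L).card else 0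

end

/-! ### Statements -/

/-- Potential method (derandomized martingales). -/
def ST_PROC : Prop := ∀ (σ ι : Type) [Fintype ι] (m : ℕ) (P : ℕ → σ → Prop) (Z : ι → ℕ → σ → ℝ)
  (lam z : ι → ℝ) (v : ι → ℕ → ℝ) (e : ι → ℕ) (s₀ : σ) (LN : ℝ),
  P 0 s₀ → (∀ i, 0 < lam i) → (Fintype.card ι : ℝ) ≤ Real.exp LN →
  (∀ i, ∀ j < m, 0 ≤ v i j) →
  (∀ i, lam i * Z i 0 s₀ + ∑ j ∈ range m, v i j + LN ≤ lam i * z i) →
  (∀ j < m, ∀ s, P j s → (∀ i, j ≤ e i → Z i j s ≤ z i) →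
    ∃ (A : Type) (_ : Fintype A) (p : A → ℝ) (nxt : A → σ), IsDist p ∧
      (∀ a, p a ≠ 0 → P (j + 1) (nxt a)) ∧
      ∀ i, j < e i →
        ∑ a, p a * Real.exp (lam i * (Z i (j + 1) (nxt a) - Z i j s)) ≤ Real.exp (v i j)) →
  ∃ s, P m s ∧ ∀ i, m ≤ e i → Z i m s ≤ z i

/-- Exponential moment from two moments. -/
def ST_EXPM : Prop := ∀ (A : Type) [Fintype A] (p Z : A → ℝ) (lam μ u : ℝ),
  IsDist p → (∀ a, p a ≠ 0 → |lam * Z a| ≤ 1) → lam * ∑ a, p a * Z a ≤ μ →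
  ∑ a, p a * Z a ^ 2 ≤ u → ∑ a, p a * Real.exp (lam * Z a) ≤ Real.exp (μ + lam ^ 2 * u)

/-- One random choice, linear statistic. -/
def ST_RLIN : Prop := ∀ (A : Type) [Fintype A] (p b : A → ℝ) (lam B : ℝ),
  IsDist p → (∀ a, p a ≠ 0 → 0 ≤ b a ∧ b a ≤ B) → 0 ≤ B → |lam| * B ≤ 1 →
  ∑ a, p a * Real.exp (lam * (∑ a', p a' * b a' - b a)) ≤
    Real.exp (lam ^ 2 * B * ∑ a, p a * b a)

/-- One step, linear statistic. -/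
def ST_LIN : Prop := ∀ (R Γ : Type) [Fintype R] [DecidableEq R] [Fintype Γ] [DecidableEq Γ]
  (X y a : R → Γ → ℝ) (p : (R → Option Γ) → ℝ) (Xm lam : ℝ),
  (∀ r γ, 0 ≤ X r γ ∧ X r γ ≤ Xm) → (∀ r γ, 0 ≤ y r γ ∧ y r γ ≤ 1 / 2) → (∀ r γ, 0 ≤ a r γ) →
  IsDist p → Marg p y →
  (∀ f, p f ≠ 0 → ∑ r, ∑ γ, (if f r = some γ then a r γ else 0) ≤ 1) →
  |lam| * (2 * Xm) ≤ 1 →
  ∑ f, p f * Real.exp (lam * (lin a (post X y f) - lin a X)) ≤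
    Real.exp (4 * Xm ^ 2 * lam ^ 2 * lin a y)

/-- One step, bilinear statistic with conflicting pairs. -/
def ST_BIL : Prop := ∀ (R Γ Q : Type) [Fintype R] [DecidableEq R] [Fintype Γ] [DecidableEq Γ]
  [Fintype Q] (X y : R → Γ → ℝ) (p : (R → Option Γ) → ℝ) (c₁ c₂ : Q → R × Γ) (κ Xm lam : ℝ),
  (∀ r γ, 0 ≤ X r γ ∧ X r γ ≤ Xm) → 1 ≤ Xm → 0 ≤ κ → κ ≤ 1 →
  (∀ r γ, 0 ≤ y r γ ∧ y r γ ≤ 1 / 2) → IsDist p → Marg p y →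
  (∀ f, p f ≠ 0 → ∀ q, ¬ (f (c₁ q).1 = some (c₁ q).2 ∧ f (c₂ q).1 = some (c₂ q).2)) →
  (∀ f, p f ≠ 0 → ∑ q, (if f (c₁ q).1 = some (c₁ q).2 then (1 : ℝ) else 0) ≤ 1) →
  (∀ f, p f ≠ 0 → ∑ q, (if f (c₂ q).1 = some (c₂ q).2 then (1 : ℝ) else 0) ≤ 1) →
  |lam| * (14 * Xm ^ 2) ≤ 1 →
  ∑ f, p f * Real.exp (lam * (bil c₁ c₂ κ (post X y f) - bil c₁ c₂ κ X)) ≤
    Real.exp (max (-lam) 0 * (4 * Xm ^ 2 * ∑ q, y (c₁ q).1 (c₁ q).2 * y (c₂ q).1 (c₂ q).2) +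
      98 * Xm ^ 4 * lam ^ 2 * ∑ q, (y (c₁ q).1 (c₁ q).2 + y (c₂ q).1 (c₂ q).2))

/-- Fractional matchings of integral size are convex combinations of matchings of that size. -/
def ST_PART : Prop := ∀ (R Γ : Type) [Fintype R] [DecidableEq R] [Fintype Γ] [DecidableEq Γ]
  (y : R → Γ → ℝ) (h : ℕ), (∀ r γ, 0 ≤ y r γ) → (∀ r, ∑ γ, y r γ ≤ 1) → (∀ γ, ∑ r, y r γ ≤ 1) →
  ∑ r, ∑ γ, y r γ = h →
  ∃ p : (R → Option Γ) → ℝ, IsDist p ∧ Marg p y ∧ (∀ f, p f ≠ 0 → Inj f) ∧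
    ∀ f, p f ≠ 0 → (univ.filter (fun r => f r ≠ none)).card = h

/-- Capacitated fractional Hall theorem. -/
def ST_FLOW : Prop := ∀ (R Γ : Type) [Fintype R] [DecidableEq R] [Fintype Γ] [DecidableEq Γ]
  (E : Finset R) (cap : R → Γ → ℝ), (∀ r γ, 0 ≤ cap r γ) →
  (∀ S ⊆ E, (S.card : ℝ) ≤ ∑ γ, min 1 (∑ r ∈ S, cap r γ)) →
  ∃ y : R → Γ → ℝ, (∀ r γ, 0 ≤ y r γ ∧ y r γ ≤ cap r γ) ∧ (∀ r ∈ E, ∑ γ, y r γ = 1) ∧
    (∀ r ∉ E, ∀ γ, y r γ = 0) ∧ ∀ γ, ∑ r, y r γ ≤ 1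

/-- The cut inequality of a star. -/
def ST_STAR : Prop := ∀ (R Γ : Type) [Fintype R] [DecidableEq R] [Fintype Γ] [DecidableEq Γ]
  (E : Finset R) (F : Finset Γ) (w : R → Γ → ℝ) (D Xm d' δ₀ θ η δ₁ δ₄ : ℝ),
  0 < D → 1 ≤ Xm → 0 < θ → θ ≤ d' → d' ≤ 1 → 32 * θ ≤ δ₀ → 0 ≤ δ₁ → δ₁ ≤ θ / 8 → 0 ≤ δ₄ →
  16 * Xm * δ₄ ≤ δ₀ → 8 * δ₀ * Xm ≤ d' → (E.card : ℝ) ≤ D →
  (∀ r γ, 0 ≤ w r γ ∧ w r γ ≤ Xm / D) →
  (∀ r ∈ E, 1 - δ₁ ≤ ∑ γ, w r γ) →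
  (∀ γ ∈ F, ∑ r ∈ E, w r γ ≤ 1 + δ₁) → (∀ γ ∈ F, 1 - 2 * δ₀ ≤ ∑ r ∈ E, w r γ) →
  (∀ γ ∉ F, ∑ r ∈ E, w r γ ≤ 1 - θ) →
  (∀ Z ⊆ E, ∀ G ⊆ F, (G.card : ℝ) * (Z.card / D - δ₀) - δ₄ * D ≤ ∑ r ∈ Z, ∑ γ ∈ G, w r γ) →
  (∀ Z ⊆ E, ∀ G ⊆ F, ∑ r ∈ Z, ∑ γ ∈ G, w r γ ≤ (Z.card : ℝ) * G.card / D + δ₄ * D) →
  (F = ∅ ∨ E.card ≤ F.card ∨
    ((F.card : ℝ) ≤ (1 - η) * D ∧ D / 2 ≤ (E.card : ℝ) ∧ 2 * δ₁ + 8 * δ₄ ≤ θ * η)) →
  ∀ S ⊆ E, (S.card : ℝ) ≤ ∑ γ, min 1 ((1 + d') * ∑ r ∈ S, w r γ)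

/-- Discrepancy from covariances. -/
def ST_DISC : Prop := ∀ (R Γ : Type) [Fintype R] [DecidableEq R] [Fintype Γ] [DecidableEq Γ]
  (N : Finset R) (L : R → Finset Γ) (X : R → Γ → ℝ) (D Xm δc δ₄ : ℝ),
  0 < D → 0 ≤ δ₄ → 0 ≤ δc → (N.card : ℝ) ≤ D → (∀ r γ, |X r γ - 1| ≤ Xm) →
  (∀ γ γ', γ ≠ γ' → cov (N.filter (fun r => γ ∈ L r ∧ γ' ∈ L r)) γ γ' X ≤ δc * D) →
  2 * Xm ^ 2 / D + 4 * δc ≤ δ₄ ^ 2 →
  ∀ Z ⊆ N, ∀ G : Finset Γ, (G.card : ℝ) ≤ 2 * D →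
    |∑ r ∈ Z, ∑ γ ∈ G, (if γ ∈ L r then X r γ - 1 else 0)| ≤ δ₄ * D ^ 2

/-- One star: all one-step estimates. -/
def ST_PSTEP : Prop := ∀ (R Γ : Type) [Fintype R] [DecidableEq R] [Fintype Γ] [DecidableEq Γ]
  (X y : R → Γ → ℝ) (p : (R → Option Γ) → ℝ) (c D Xm : ℝ) (N : Finset R) (C : R → Finset Γ)
  (Good : (R → Option Γ) → Prop),
  1 ≤ Xm → 0 ≤ c → c ≤ 2 → 4 * Xm ≤ D → (∀ r ∉ N, C r = ∅) →
  (∀ r γ, X r γ = 0 ∨ (1 ≤ X r γ ∧ X r γ ≤ Xm)) → Choice X c D C Good y p →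
  (∀ r γ, y r γ ≤ 1 / 2) ∧
  -- the support
  (∀ f, p f ≠ 0 → ∀ r γ, f r = some γ → γ ∈ C r ∧ X r γ ≠ 0) ∧
  -- update of the weights
  (∀ f r γ b, (X r γ = 0 ∨ (1 ≤ X r γ ∧ b ≤ 1 / X r γ)) →
    (post X y f r γ = 0 ∨ (1 ≤ post X y f r γ ∧
      b - c * (if γ ∈ C r then 1 / D else 0) ≤ 1 / post X y f r γ))) ∧
  -- linear statistics
  (∀ (a : R → Γ → ℝ) (lam : ℝ), (∀ r γ, 0 ≤ a r γ) →
    (∀ f, Good f → Inj f → (∀ r γ, f r = some γ → γ ∈ C r) →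
      ∑ r, ∑ γ, (if f r = some γ then a r γ else 0) ≤ 1) → |lam| * (2 * Xm) ≤ 1 →
    ∑ f, p f * Real.exp (lam * (lin a (post X y f) - lin a X)) ≤
      Real.exp (8 * Xm ^ 3 * lam ^ 2 * ∑ r ∈ N, ∑ γ, a r γ / D)) ∧
  -- covariances
  (∀ (NQ : Finset R) (γ γ' : Γ) (lam : ℝ), γ ≠ γ' → 0 ≤ lam → lam * (14 * Xm ^ 2) ≤ 1 →
    ∑ f, p f * Real.exp (lam * (cov NQ γ γ' (post X y f) - cov NQ γ γ' X)) ≤
      Real.exp (392 * Xm ^ 5 * lam ^ 2 * ∑ r ∈ NQ, (if r ∈ N then 1 / D else 0))) ∧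
  -- edges
  (∀ (v w : R) (K : Finset Γ) (lam : ℝ), v ≠ w → 0 ≤ lam → lam * (14 * Xm ^ 2) ≤ 1 →
    ∑ f, p f * Real.exp (lam * (edg v w K X - edg v w K (post X y f))) ≤
      Real.exp (8 * Xm ^ 3 * lam * (if v ∈ N then 1 / D else 0) +
        196 * Xm ^ 5 * lam ^ 2 * K.card *
          ((if v ∈ N then 1 / D else 0) + (if w ∈ N then 1 / D else 0))))

/-- A sequence of random stars. -/
def ST_PHASE : Prop := ∀ (R Γ I Q W : Type) [Fintype R] [DecidableEq R] [Fintype Γ]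
  [DecidableEq Γ] [Fintype I] [Fintype Q] [Fintype W]
  (m : ℕ) (D : ℕ → ℝ) (N : ℕ → Finset R) (C : ℕ → R → Finset Γ)
  (Good : ℕ → (R → Option Γ) → Prop) (X₀ base : R → Γ → ℝ) (c Xm δ LN : ℝ)
  (a : I → R → Γ → ℝ) (sI : I → ℝ) (e : I → ℕ)
  (NQ : Q → Finset R) (q₁ q₂ : Q → Γ) (sQ : Q → ℝ)
  (v w : W → R) (K : W → Finset Γ) (sW : W → ℝ),
  1 ≤ Xm → 1 ≤ c → c ≤ 2 → 0 < δ → δ ≤ 1 → 1 ≤ LN →
  (2 * (Fintype.card I : ℝ) + Fintype.card Q + Fintype.card W ≤ Real.exp LN) →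
  (∀ j < m, 4 * Xm ≤ D j) →
  (∀ j, ∀ r ∉ N j, C j r = ∅) →
  (∀ r, ∑ j ∈ range m, (if r ∈ N j then 1 / D j else 0) ≤ 1) →
  (∀ r γ, X₀ r γ = 0 ∨ (1 ≤ X₀ r γ ∧ base r γ ≤ 1 / X₀ r γ)) →
  (∀ r γ, c * ∑ j ∈ range m, (if γ ∈ C j r then 1 / D j else 0) + 1 / Xm ≤ base r γ) →
  (∀ i r γ, 0 ≤ a i r γ) → (∀ i, ∑ r, ∑ γ, a i r γ ≤ sI i) →
  (∀ i, 4000 * Xm ^ 5 * LN ≤ δ ^ 2 * sI i) →
  (∀ i, ∀ j < m, j < e i → ∀ f : R → Option Γ, Good j f → Inj f →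
    (∀ r γ, f r = some γ → γ ∈ C j r) →
    ∑ r, ∑ γ, (if f r = some γ then a i r γ else 0) ≤ 1) →
  (∀ q, q₁ q ≠ q₂ q) → (∀ q, ((NQ q).card : ℝ) ≤ sQ q) →
  (∀ q, 4000 * Xm ^ 5 * LN ≤ δ ^ 2 * sQ q) →
  (∀ i, v i ≠ w i) → (∀ i, ((K i).card : ℝ) ≤ sW i) →
  (∀ i, 4000 * Xm ^ 5 * LN ≤ δ ^ 2 * sW i) →
  (∀ j < m, ∀ X : R → Γ → ℝ, (∀ r γ, X r γ = 0 ∨ (1 ≤ X r γ ∧ X r γ ≤ Xm)) →
    (∀ r γ, X₀ r γ = 0 → X r γ = 0) →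
    (∀ i, j ≤ e i → |lin (a i) X - lin (a i) X₀| ≤ δ * sI i) →
    (∀ q, cov (NQ q) (q₁ q) (q₂ q) X ≤ cov (NQ q) (q₁ q) (q₂ q) X₀ + δ * sQ q) →
    (∀ i, edg (v i) (w i) (K i) X₀ - δ * sW i ≤ edg (v i) (w i) (K i) X) →
    ∃ (y : R → Γ → ℝ) (p : (R → Option Γ) → ℝ), Choice X c (D j) (C j) (Good j) y p) →
  ∃ (f : ℕ → R → Option Γ) (X : R → Γ → ℝ),
    (∀ j < m, Good j (f j) ∧ Inj (f j)) ∧
    (∀ j < m, ∀ r γ, f j r = some γ → γ ∈ C j r ∧ X₀ r γ ≠ 0 ∧ X r γ = 0) ∧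
    (∀ i < m, ∀ j < m, i ≠ j → ∀ r γ, f i r = some γ → f j r ≠ some γ) ∧
    (∀ r γ, X₀ r γ = 0 → X r γ = 0) ∧
    (∀ r γ, X r γ = 0 ∨ (1 ≤ X r γ ∧
      base r γ - c * ∑ j ∈ range m, (if γ ∈ C j r then 1 / D j else 0) ≤ 1 / X r γ)) ∧
    (∀ i, m ≤ e i → |lin (a i) X - lin (a i) X₀| ≤ δ * sI i) ∧
    (∀ q, cov (NQ q) (q₁ q) (q₂ q) X ≤ cov (NQ q) (q₁ q) (q₂ q) X₀ + δ * sQ q) ∧
    (∀ i, edg (v i) (w i) (K i) X₀ - δ * sW i ≤ edg (v i) (w i) (K i) X)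

/-- First phase: the choice for a star of type P. -/
def ST_PRE : Prop := ∀ (R Γ : Type) [Fintype R] [DecidableEq R] [Fintype Γ] [DecidableEq Γ]
  (ε : ℝ) (N : Finset R) (D : ℕ) (L L₀ : R → Finset Γ) (X : R → Γ → ℝ),
  0 < ε → ε ≤ 1 → N.card ≤ D → (∀ r ∈ N, (L r).card = D) → 2 ^ 70 ≤ ε ^ 12 * D →
  IsP ε N D L →
  (∀ r ∈ N, L₀ r ⊆ L r \ Full ε N D L) → (∀ r ∈ N, (L₀ r).card = hh ε N D L) →
  (∀ r γ, X r γ = 0 ∨ (1 ≤ X r γ ∧ X r γ ≤ 2 / ε)) →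
  (∀ γ, |colS N L X γ - nn N L γ| ≤ dl ε * D) →
  ((N.card : ℝ) - dl ε * D) * hh ε N D L ≤ ∑ r ∈ N, ∑ γ ∈ L₀ r, X r γ →
  ∃ (y : R → Γ → ℝ) (p : (R → Option Γ) → ℝ),
    Choice X (1 + ε / 4) D (fun r => if r ∈ N then L₀ r else ∅)
      (fun f => (univ.filter (fun r => f r ≠ none)).card = hh ε N D L) y p

/-- Second phase: the choice for the remaining edges of a star. -/
def ST_MAIN : Prop := ∀ (R Γ : Type) [Fintype R] [DecidableEq R] [Fintype Γ] [DecidableEq Γ]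
  (ε : ℝ) (N P : Finset R) (D : ℕ) (L L₀ : R → Finset Γ) (O : Finset Γ) (X : R → Γ → ℝ),
  0 < ε → ε ≤ 1 → N.card ≤ D → (∀ r ∈ N, (L r).card = D) → 2 ^ 70 ≤ ε ^ 12 * D →
  P ⊆ N → P.card = hh ε N D L → O.card ≤ hh ε N D L → Disjoint O (Full ε N D L) →
  (∀ r ∈ N, L₀ r ⊆ L r \ Full ε N D L) → (∀ r ∈ N, (L₀ r).card ≤ hh ε N D L) →
  (∀ r γ, X r γ = 0 ∨ (1 ≤ X r γ ∧ X r γ ≤ 2 / ε)) →
  (∀ r ∈ N, |∑ γ ∈ L r, X r γ - D| ≤ 2 * dl ε * D) →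
  (∀ γ, |colS N L X γ - nn N L γ| ≤ 2 * dl ε * D) →
  (∀ γ γ', γ ≠ γ' →
    cov (N.filter (fun r => γ ∈ L r ∧ γ' ∈ L r)) γ γ' X ≤ 2 * dl ε * D) →
  ∃ (y : R → Γ → ℝ) (p : (R → Option Γ) → ℝ),
    Choice X (1 + ε / 4) D (fun r => if r ∈ N ∧ r ∉ P then L r \ (L₀ r ∪ O) else ∅)
      (fun f => ∀ r, f r ≠ none ↔ (r ∈ N ∧ r ∉ P)) y p

/-- The data of the star stage: stars `t : T` with rows `N t`, lists `L t r` of size `D t`, and the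
external statistics (linear: `a`, `sI`; edges: `v`, `w`, `K`, `sW`). -/
structure TData {R T Γ I W : Type} [Fintype R] [DecidableEq R] [Fintype T] [DecidableEq T]
    [Fintype Γ] [DecidableEq Γ] [Fintype I] [Fintype W]
    (ε LN : ℝ) (N : T → Finset R) (D : T → ℕ) (L : T → R → Finset Γ)
    (a : I → R → Γ → ℝ) (sI : I → ℝ) (v w : W → R) (K : W → Finset Γ) (sW : W → ℝ) : Prop where
  pos : 0 < ε
  le_one : ε ≤ 1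
  one_le : 1 ≤ LN
  count : 2 * (Fintype.card I : ℝ) + Fintype.card W + 2 * (Fintype.card T) * (Fintype.card R) +
    2 * (Fintype.card T) * (Fintype.card Γ) + 2 * (Fintype.card T) +
    (Fintype.card T) * (Fintype.card Γ) ^ 2 ≤ Real.exp LN
  rows : ∀ t, (N t).card ≤ D t
  card : ∀ t, ∀ r ∈ N t, (L t r).card = D t
  large : ∀ t, 2 ^ 153 * LN ≤ ε ^ 25 * D t
  slack : ∀ r, ∑ t, (if r ∈ N t then 1 / (D t : ℝ) else 0) ≤ 1 - ε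
  a_nonneg : ∀ i r γ, 0 ≤ a i r γ
  a_sum : ∀ i, ∑ r, ∑ γ, a i r γ ≤ sI i
  sI_large : ∀ i, 2 ^ 153 * LN ≤ ε ^ 25 * sI i
  a_one : ∀ i, ∀ f : R → Option Γ, Inj f → ∑ r, ∑ γ, (if f r = some γ then a i r γ else 0) ≤ 1
  ne : ∀ i, v i ≠ w i
  K_card : ∀ i, ((K i).card : ℝ) ≤ sW i
  sW_large : ∀ i, 2 ^ 153 * LN ≤ ε ^ 25 * sW i

/-- First phase, for all stars of type P. -/
def ST_TPRE : Prop := ∀ (R T Γ I W : Type) [Fintype R] [DecidableEq R] [Fintype T] [DecidableEq T]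
  [Fintype Γ] [DecidableEq Γ] [Fintype I] [Fintype W]
  (ε LN : ℝ) (N : T → Finset R) (D : T → ℕ) (L : T → R → Finset Γ)
  (a : I → R → Γ → ℝ) (sI : I → ℝ) (v w : W → R) (K : W → Finset Γ) (sW : W → ℝ)
  (L₀ : T → R → Finset Γ), TData ε LN N D L a sI v w K sW →
  (∀ t, ∀ r ∈ N t, L₀ t r ⊆ L t r \ Full ε (N t) (D t) (L t)) →
  (∀ t, ∀ r ∈ N t, (L₀ t r).card = hh ε (N t) (D t) (L t)) →
  ∃ (g : T → R → Option Γ) (X : R → Γ → ℝ),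
    (∀ t, (univ.filter (fun r => g t r ≠ none)).card = hh ε (N t) (D t) (L t)) ∧
    (∀ t, Inj (g t)) ∧ (∀ t r γ, g t r = some γ → r ∈ N t ∧ γ ∈ L₀ t r ∧ X r γ = 0) ∧
    (∀ t t' r γ, g t r = some γ → g t' r = some γ → t = t') ∧
    (∀ r γ, X r γ = 0 ∨ (1 ≤ X r γ ∧
      1 - (1 + ε / 4) * ∑ t, (if r ∈ N t ∧ γ ∈ L₀ t r then 1 / (D t : ℝ) else 0) ≤ 1 / X r γ)) ∧
    (∀ i, |lin (a i) X - ∑ r, ∑ γ, a i r γ| ≤ dl ε * sI i) ∧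
    (∀ t, ∀ r ∈ N t, |∑ γ ∈ L t r, X r γ - D t| ≤ dl ε * D t) ∧
    (∀ t γ, |colS (N t) (L t) X γ - nn (N t) (L t) γ| ≤ dl ε * D t) ∧
    (∀ t γ γ', γ ≠ γ' →
      cov ((N t).filter (fun r => γ ∈ L t r ∧ γ' ∈ L t r)) γ γ' X ≤ dl ε * D t) ∧
    (∀ i, ((K i).card : ℝ) - dl ε * sW i ≤ edg (v i) (w i) (K i) X)

/-- Second phase, for all stars. -/
def ST_TMAIN : Prop := ∀ (R T Γ I W : Type) [Fintype R] [DecidableEq R] [Fintype T]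
  [DecidableEq T] [Fintype Γ] [DecidableEq Γ] [Fintype I] [Fintype W]
  (ε LN : ℝ) (N : T → Finset R) (D : T → ℕ) (L : T → R → Finset Γ)
  (a : I → R → Γ → ℝ) (sI : I → ℝ) (v w : W → R) (K : W → Finset Γ) (sW : W → ℝ)
  (L₀ : T → R → Finset Γ) (g : T → R → Option Γ) (X₀ : R → Γ → ℝ),
  TData ε LN N D L a sI v w K sW →
  (∀ t, ∀ r ∈ N t, L₀ t r ⊆ L t r \ Full ε (N t) (D t) (L t)) →
  (∀ t, ∀ r ∈ N t, (L₀ t r).card = hh ε (N t) (D t) (L t)) →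
  (∀ t, (univ.filter (fun r => g t r ≠ none)).card = hh ε (N t) (D t) (L t)) →
  (∀ t, Inj (g t)) → (∀ t r γ, g t r = some γ → r ∈ N t ∧ γ ∈ L₀ t r ∧ X₀ r γ = 0) →
  (∀ t t' r γ, g t r = some γ → g t' r = some γ → t = t') →
  (∀ r γ, X₀ r γ = 0 ∨ (1 ≤ X₀ r γ ∧
    1 - (1 + ε / 4) * ∑ t, (if r ∈ N t ∧ γ ∈ L₀ t r then 1 / (D t : ℝ) else 0) ≤ 1 / X₀ r γ)) →
  (∀ t, ∀ r ∈ N t, |∑ γ ∈ L t r, X₀ r γ - D t| ≤ dl ε * D t) →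
  (∀ t γ, |colS (N t) (L t) X₀ γ - nn (N t) (L t) γ| ≤ dl ε * D t) →
  (∀ t γ γ', γ ≠ γ' →
    cov ((N t).filter (fun r => γ ∈ L t r ∧ γ' ∈ L t r)) γ γ' X₀ ≤ dl ε * D t) →
  ∃ (f : T → R → Option Γ) (X : R → Γ → ℝ),
    (∀ t, ∀ r ∉ N t, f t r = none) ∧ (∀ t, ∀ r ∈ N t, ∃ γ ∈ L t r, f t r = some γ) ∧
    (∀ t, Inj (f t)) ∧ (∀ t t' r γ, f t r = some γ → f t' r = some γ → t = t') ∧
    (∀ t r γ, f t r = some γ → X r γ = 0) ∧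
    (∀ r γ, X r γ = 0 ∨ (1 ≤ X r γ ∧
      1 - (1 + ε / 4) * ∑ t, (if r ∈ N t ∧ γ ∈ L t r then 1 / (D t : ℝ) else 0) ≤ 1 / X r γ)) ∧
    (∀ i, |lin (a i) X - lin (a i) X₀| ≤ dl ε * sI i) ∧
    (∀ i, edg (v i) (w i) (K i) X₀ - dl ε * sW i ≤ edg (v i) (w i) (K i) X)

/-- Both phases together. -/
def ST_TST : Prop := ∀ (R T Γ I W : Type) [Fintype R] [DecidableEq R] [Fintype T] [DecidableEq T]
  [Fintype Γ] [DecidableEq Γ] [Fintype I] [Fintype W]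
  (ε LN : ℝ) (N : T → Finset R) (D : T → ℕ) (L : T → R → Finset Γ)
  (a : I → R → Γ → ℝ) (sI : I → ℝ) (v w : W → R) (K : W → Finset Γ) (sW : W → ℝ),
  TData ε LN N D L a sI v w K sW →
  ∃ (f : T → R → Option Γ) (X : R → Γ → ℝ),
    (∀ t, ∀ r ∉ N t, f t r = none) ∧ (∀ t, ∀ r ∈ N t, ∃ γ ∈ L t r, f t r = some γ) ∧
    (∀ t, Inj (f t)) ∧ (∀ t t' r γ, f t r = some γ → f t' r = some γ → t = t') ∧
    (∀ t r γ, f t r = some γ → X r γ = 0) ∧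
    (∀ r γ, X r γ = 0 ∨ (1 ≤ X r γ ∧
      1 - (1 + ε / 4) * ∑ t, (if r ∈ N t ∧ γ ∈ L t r then 1 / (D t : ℝ) else 0) ≤ 1 / X r γ)) ∧
    (∀ i, |lin (a i) X - ∑ r, ∑ γ, a i r γ| ≤ 2 * dl ε * sI i) ∧
    (∀ i, ((K i).card : ℝ) - 2 * dl ε * sW i ≤ edg (v i) (w i) (K i) X)

/-- The new weights after colouring the edge `v w` with `g` (marginals `p`). -/
noncomputable def xnew {R Γ : Type} [DecidableEq R] [DecidableEq Γ] (v w : R) (p : Γ → ℝ)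
    (X : R → Γ → ℝ) (g : Γ) : R → Γ → ℝ :=
  fun u γ => if u = v ∨ u = w then (if γ = g then 0 else X u γ / (1 - p γ)) else X u γ

/-- Colouring one edge between light vertices. -/
def ST_RSTEP : Prop := ∀ (R Γ : Type) [Fintype R] [DecidableEq R] [Fintype Γ] [DecidableEq Γ]
  (v w : R) (K : Finset Γ) (De Xm δ : ℝ) (X : R → Γ → ℝ),
  v ≠ w → 1 ≤ Xm → 0 < δ → δ ≤ 1 / 8 → 4 * Xm ^ 2 ≤ De → (K.card : ℝ) = De →
  (∀ r γ, X r γ = 0 ∨ (1 ≤ X r γ ∧ X r γ ≤ Xm)) → (1 - 2 * δ) * De ≤ edg v w K X →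
  ∃ p : Γ → ℝ, IsDist p ∧ (∀ γ, p γ ≤ 1 / 2) ∧ (∀ γ, γ ∉ K → p γ = 0) ∧
    (∀ γ, p γ ≠ 0 → X v γ ≠ 0 ∧ X w γ ≠ 0) ∧
    -- update of the weights
    (∀ g γ b, (X v γ = 0 ∨ (1 ≤ X v γ ∧ b ≤ 1 / X v γ)) →
      (xnew v w p X g v γ = 0 ∨ (1 ≤ xnew v w p X g v γ ∧
        b - (1 + 4 * δ) * (if γ ∈ K then X w γ / De else 0) ≤ 1 / xnew v w p X g v γ))) ∧
    (∀ g γ b, (X w γ = 0 ∨ (1 ≤ X w γ ∧ b ≤ 1 / X w γ)) →
      (xnew v w p X g w γ = 0 ∨ (1 ≤ xnew v w p X g w γ ∧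
        b - (1 + 4 * δ) * (if γ ∈ K then X v γ / De else 0) ≤ 1 / xnew v w p X g w γ))) ∧
    -- loads
    (∀ (γ : Γ) (αv αw lam : ℝ), 0 ≤ αv → αv ≤ 1 → 0 ≤ αw → αw ≤ 1 → |lam| * (4 * Xm) ≤ 1 →
      ∑ g, p g * Real.exp (lam * (αv * (xnew v w p X g v γ - X v γ) +
        αw * (xnew v w p X g w γ - X w γ))) ≤
        Real.exp (16 * Xm ^ 4 * lam ^ 2 * (αv ^ 2 + αw ^ 2) / De)) ∧
    -- edges sharing one vertex with `v w`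
    (∀ (x : R) (K' : Finset Γ) (lam : ℝ), x ≠ v → x ≠ w → |lam| * (2 * Xm ^ 2) ≤ 1 →
      ∑ g, p g * Real.exp (lam * (edg v x K' (xnew v w p X g) - edg v x K' X)) ≤
        Real.exp (8 * Xm ^ 6 * lam ^ 2 * K'.card / De)) ∧
    (∀ (x : R) (K' : Finset Γ) (lam : ℝ), x ≠ v → x ≠ w → |lam| * (2 * Xm ^ 2) ≤ 1 →
      ∑ g, p g * Real.exp (lam * (edg w x K' (xnew v w p X g) - edg w x K' X)) ≤
        Real.exp (8 * Xm ^ 6 * lam ^ 2 * K'.card / De))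

/-- The load of colour `γ` at the vertex `u` from the edges `v j, w j` (`j < M`). -/
noncomputable def load {R Γ : Type} [DecidableEq R] [DecidableEq Γ] (M : ℕ) (v w : ℕ → R)
    (K : ℕ → Finset Γ) (De : ℕ → ℕ) (X : R → Γ → ℝ) (u : R) (γ : Γ) : ℝ :=
  ∑ j ∈ range M, ((if v j = u ∧ γ ∈ K j then X (w j) γ / De j else 0) +
    (if w j = u ∧ γ ∈ K j then X (v j) γ / De j else 0))

/-- Colouring the edges between light vertices one by one. -/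
def ST_RST : Prop := ∀ (R Γ : Type) [Fintype R] [DecidableEq R] [Fintype Γ] [DecidableEq Γ]
  (M : ℕ) (v w : ℕ → R) (K : ℕ → Finset Γ) (De : ℕ → ℕ) (X₀ : R → Γ → ℝ) (Xm δ Dmin LN : ℝ),
  1 ≤ Xm → 0 < δ → δ ≤ 1 / 8 → 1 ≤ LN →
  ((Fintype.card R : ℝ) * Fintype.card Γ + M ≤ Real.exp LN) →
  64 * Xm ^ 6 * LN ≤ δ ^ 2 * Dmin →
  (∀ j < M, v j ≠ w j ∧ (K j).card = De j ∧ Dmin ≤ De j) →
  (∀ i < M, ∀ j < M, i ≠ j → ¬ ((v i = v j ∧ w i = w j) ∨ (v i = w j ∧ w i = v j))) →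
  (∀ u, ∑ j ∈ range M, (if v j = u ∨ w j = u then 1 / (De j : ℝ) else 0) ≤ 1) →
  (∀ u γ, X₀ u γ = 0 ∨
    (1 ≤ X₀ u γ ∧ (1 + 4 * δ) * (load M v w K De X₀ u γ + δ) + 1 / Xm ≤ 1 / X₀ u γ)) →
  (∀ j < M, (1 - δ) * De j ≤ edg (v j) (w j) (K j) X₀) →
  ∃ g : ℕ → Option Γ,
    (∀ j < M, ∃ γ ∈ K j, g j = some γ ∧ X₀ (v j) γ ≠ 0 ∧ X₀ (w j) γ ≠ 0) ∧
    (∀ i < M, ∀ j < M, i ≠ j → (v i = v j ∨ v i = w j ∨ w i = v j ∨ w i = w j) → g i ≠ g j)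

/-- The local list theorem. -/
def ST_CORE : Prop := ∀ (R T Γ : Type) [Fintype R] [DecidableEq R] [Fintype T] [DecidableEq T]
  [Fintype Γ] [DecidableEq Γ] (ε LN : ℝ) (N : T → Finset R) (D : T → ℕ) (L : T → R → Finset Γ)
  (M : ℕ) (v w : ℕ → R) (K : ℕ → Finset Γ) (De : ℕ → ℕ),
  0 < ε → ε ≤ 1 → 1 ≤ LN →
  2 * (Fintype.card R : ℝ) * (Fintype.card Γ) + M + 2 * (Fintype.card T) * (Fintype.card R) +
    2 * (Fintype.card T) * (Fintype.card Γ) + 2 * (Fintype.card T) +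
    (Fintype.card T) * (Fintype.card Γ) ^ 2 ≤ Real.exp LN →
  (∀ t, (N t).card ≤ D t) → (∀ t, ∀ r ∈ N t, (L t r).card = D t) →
  (∀ t, 2 ^ 153 * LN ≤ ε ^ 25 * D t) →
  (∀ j < M, v j ≠ w j ∧ (K j).card = De j ∧ 2 ^ 153 * LN ≤ ε ^ 25 * De j) →
  (∀ i < M, ∀ j < M, i ≠ j → ¬ ((v i = v j ∧ w i = w j) ∨ (v i = w j ∧ w i = v j))) →
  (∀ r, ∑ t, (if r ∈ N t then 1 / (D t : ℝ) else 0) +
    ∑ j ∈ range M, (if v j = r ∨ w j = r then 1 / (De j : ℝ) else 0) ≤ 1 - ε) →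
  ∃ (f : T → R → Option Γ) (g : ℕ → Option Γ),
    (∀ t, ∀ r ∉ N t, f t r = none) ∧ (∀ t, ∀ r ∈ N t, ∃ γ ∈ L t r, f t r = some γ) ∧
    (∀ t, Inj (f t)) ∧ (∀ t t' r γ, f t r = some γ → f t' r = some γ → t = t') ∧
    (∀ j < M, ∃ γ ∈ K j, g j = some γ) ∧
    (∀ i < M, ∀ j < M, i ≠ j → (v i = v j ∨ v i = w j ∨ w i = v j ∨ w i = w j) → g i ≠ g j) ∧
    (∀ t r, ∀ j < M, (v j = r ∨ w j = r) → ∀ γ, f t r = some γ → g j ≠ some γ)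

/-- Number of neighbours of `t` in the levels below `j`. -/
def dlow {V : Type} [Fintype V] [DecidableEq V] (G : SimpleGraph V) [DecidableRel G.Adj]
    (lev : V → ℕ) (j : ℕ) (t : V) : ℕ := ((G.neighborFinset t).filter (fun u => lev u < j)).card

/-- The condition on the pair (coloured part `T`, rest). -/
structure Ext {V : Type} [Fintype V] [DecidableEq V] (G : SimpleGraph V) [DecidableRel G.Adj]
    (ε : ℝ) (T : Finset V) (k : ℕ) : Prop where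
  pos : 0 < ε
  le_one : ε ≤ 1
  k_le : k ≤ Fintype.card V
  k_large : 2 ^ 160 * Real.log (Fintype.card V) ≤ ε ^ 25 * k
  tight : ∀ t ∈ T, ∀ r ∉ T, G.Adj t r → G.degree t ≤ k ∧
    2 ^ 160 * Real.log (Fintype.card V) ≤
      ε ^ 25 * ((k : ℝ) - ((G.neighborFinset t).filter (fun u => u ∈ T)).card)
  slack : ∀ r ∉ T, ∑ t ∈ (G.neighborFinset r).filter (fun u => u ∈ T),
      1 / ((k : ℝ) - ((G.neighborFinset t).filter (fun u => u ∈ T)).card) +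
    (((G.neighborFinset r).filter (fun u => u ∉ T)).card : ℝ) / k ≤ 1 - ε

/-- Precolouring extension. -/
def ST_EXT : Prop := ∀ (V : Type) [Fintype V] [DecidableEq V] (G : SimpleGraph V)
  [DecidableRel G.Adj] (ε : ℝ) (T : Finset V) (k : ℕ), Ext G ε T k →
  ∀ (L : Sym2 V → Finset ℕ) (c₀ : Sym2 V → ℕ),
  (∀ x y, G.Adj x y → ¬ (x ∈ T ∧ y ∈ T) → k ≤ (L s(x, y)).card) →
  (∀ x ∈ T, ∀ y ∈ T, ∀ z ∈ T, G.Adj x y → G.Adj x z → y ≠ z → c₀ s(x, y) ≠ c₀ s(x, z)) →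
  ∃ c : Sym2 V → ℕ, (∀ x ∈ T, ∀ y ∈ T, G.Adj x y → c s(x, y) = c₀ s(x, y)) ∧
    (∀ x y, G.Adj x y → ¬ (x ∈ T ∧ y ∈ T) → c s(x, y) ∈ L s(x, y)) ∧
    (∀ x y z, G.Adj x y → G.Adj x z → y ≠ z → c s(x, y) ≠ c s(x, z))

/-- The condition on levels. -/
structure Chain {V : Type} [Fintype V] [DecidableEq V] (G : SimpleGraph V) [DecidableRel G.Adj]
    (ε : ℝ) (lev : V → ℕ) (k : ℕ) : Prop where
  pos : 0 < ε
  le_one : ε ≤ 1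
  k_le : k ≤ Fintype.card V
  k_large : 2 ^ 160 * Real.log (Fintype.card V) ≤ ε ^ 25 * k
  tight : ∀ t r, G.Adj t r → lev t < lev r → G.degree t ≤ k ∧
    2 ^ 160 * Real.log (Fintype.card V) ≤ ε ^ 25 * ((k : ℝ) - dlow G lev (lev r) t)
  slack : ∀ r, 0 < lev r → ∑ t ∈ (G.neighborFinset r).filter (fun u => lev u < lev r),
      1 / ((k : ℝ) - dlow G lev (lev r) t) +
    (((G.neighborFinset r).filter (fun u => lev u = lev r)).card : ℝ) / k ≤ 1 - ε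

/-- Precolouring extension through levels. -/
def ST_CHAIN : Prop := ∀ (V : Type) [Fintype V] [DecidableEq V] (G : SimpleGraph V)
  [DecidableRel G.Adj] (ε : ℝ) (lev : V → ℕ) (k : ℕ), Chain G ε lev k →
  ∀ (L : Sym2 V → Finset ℕ) (c₀ : Sym2 V → ℕ),
  (∀ x y, G.Adj x y → ¬ (lev x = 0 ∧ lev y = 0) → k ≤ (L s(x, y)).card) →
  (∀ x y z, lev x = 0 → lev y = 0 → lev z = 0 → G.Adj x y → G.Adj x z → y ≠ z →
    c₀ s(x, y) ≠ c₀ s(x, z)) →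
  ∃ c : Sym2 V → ℕ, (∀ x y, lev x = 0 → lev y = 0 → G.Adj x y → c s(x, y) = c₀ s(x, y)) ∧
    (∀ x y, G.Adj x y → ¬ (lev x = 0 ∧ lev y = 0) → c s(x, y) ∈ L s(x, y)) ∧
    (∀ x y z, G.Adj x y → G.Adj x z → y ≠ z → c s(x, y) ≠ c s(x, z))

/-- Galvin's theorem for a bipartite graph given by a 2-colouring `A`. -/
def ST_GAL : Prop := ∀ (V : Type) [Fintype V] [DecidableEq V] (G : SimpleGraph V)
  [DecidableRel G.Adj] (A : V → Bool) (k : ℕ), (∀ x y, G.Adj x y → A x ≠ A y) →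
  (∀ x, G.degree x ≤ k) → ∀ L : Sym2 V → Finset ℕ, (∀ x y, G.Adj x y → k ≤ (L s(x, y)).card) →
  ∃ c : Sym2 V → ℕ, (∀ x y, G.Adj x y → c s(x, y) ∈ L s(x, y)) ∧
    (∀ x y z, G.Adj x y → G.Adj x z → y ≠ z → c s(x, y) ≠ c s(x, z))

/-- The list edge-colouring conjecture for `G`, with chromatic index `Δ(G)`. -/
def LECC {V : Type} [Fintype V] [DecidableEq V] (G : SimpleGraph V) [DecidableRel G.Adj] : Prop :=
  ∀ k : ℕ, (G.lineGraph.Colorable k ↔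
      ∀ L : G.edgeSet → Finset ℕ, (∀ e, k ≤ (L e).card) →
        ∃ f : G.edgeSet → ℕ, (∀ e, f e ∈ L e) ∧ ∀ e e', G.lineGraph.Adj e e' → f e ≠ f e') ∧
    (G.lineGraph.Colorable k ↔ G.maxDegree ≤ k)

/-- Enough for `LECC`: lists of size `Δ(G)`. -/
def ST_TOP : Prop := ∀ (V : Type) [Fintype V] [DecidableEq V] (G : SimpleGraph V)
  [DecidableRel G.Adj],
  (∀ L : Sym2 V → Finset ℕ, (∀ x y, G.Adj x y → G.maxDegree ≤ (L s(x, y)).card) →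
    ∃ c : Sym2 V → ℕ, (∀ x y, G.Adj x y → c s(x, y) ∈ L s(x, y)) ∧
      (∀ x y z, G.Adj x y → G.Adj x z → y ≠ z → c s(x, y) ≠ c s(x, z))) → LECC G

/-- Levels with a bipartite level 0. -/
def ST_BIP : Prop := ∀ (V : Type) [Fintype V] [DecidableEq V] (G : SimpleGraph V)
  [DecidableRel G.Adj] (ε : ℝ) (lev : V → ℕ) (A : V → Bool), Chain G ε lev G.maxDegree →
  (∀ x y, G.Adj x y → lev x = 0 → lev y = 0 → A x ≠ A y) → LECC G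

/-- The case of a sparse heavy part. -/
def ST_BETA : Prop := ∀ (V : Type) [Fintype V] [DecidableEq V] (G : SimpleGraph V)
  [DecidableRel G.Adj] (ε β : ℝ), 0 < ε → 0 ≤ β → β + ε ≤ 1 →
  2 ^ 160 * Real.log (Fintype.card V) ≤ ε ^ 26 * G.maxDegree →
  (∀ v, (1 - β - ε) * G.maxDegree < G.degree v →
    (((G.neighborFinset v).filter (fun u => (1 - β - ε) * G.maxDegree < (G.degree u : ℝ))).card : ℝ)
      ≤ β * G.maxDegree) → LECC G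

end Pool.Agent.Helper21.LQ
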