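import Mathlib
import Pool.Agent.Helper21.LQ.Defs

set_option autoImplicit false

namespace Pool.Agent.Helper21.LQ

open Finset

/-- The levels of a graph with a sparse heavy part. -/
noncomputable def blev {V : Type} [Fintype V] [DecidableEq V] (H : SimpleGraph V)
    [DecidableRel H.Adj] (s : ℝ) (v : V) : ℕ := by
  classical
  exact if s < (H.degree v : ℝ) then 1 else 2

theorem blev_chain {V : Type} [Fintype V] [DecidableEq V] (H : SimpleGraph V)
    [DecidableRel H.Adj] (ε β : ℝ) (k : ℕ) (hε : 0 < ε) (hβ : 0 ≤ β) (hβε : β + ε ≤ 1)
    (hkn : k ≤ Fintype.card V) (hdeg : ∀ v, H.degree v ≤ k)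
    (hlog : 2 ^ 160 * Real.log (Fintype.card V) ≤ ε ^ 26 * k)
    (hh : ∀ v, (1 - β - ε) * k < H.degree v →
      (((H.neighborFinset v).filter (fun u => (1 - β - ε) * k < (H.degree u : ℝ))).card : ℝ)
        ≤ β * k) :
    Chain H ε (blev H ((1 - β - ε) * k)) k := by
  classical
  have hε1 : ε ≤ 1 := by linarith
  have hk0 : (0 : ℝ) ≤ k := Nat.cast_nonneg k
  have hβ1 : 0 < 1 - β := by linarith
  have hlev1 : ∀ v, blev H ((1 - β - ε) * k) v < 2 ↔ (1 - β - ε) * k < (H.degree v : ℝ) := by
    intro v
    unfold blev
    split_ifs with h <;> simp [h]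
  have hlev2 : ∀ v, blev H ((1 - β - ε) * k) v = 2 ↔ ¬ (1 - β - ε) * k < (H.degree v : ℝ) := by
    intro v
    unfold blev
    split_ifs with h <;> simp [h]
  have hlev3 : ∀ v, blev H ((1 - β - ε) * k) v = 1 ↔ (1 - β - ε) * k < (H.degree v : ℝ) := by
    intro v
    unfold blev
    split_ifs with h <;> simp [h]
  have hlev4 : ∀ v, blev H ((1 - β - ε) * k) v = 1 ∨ blev H ((1 - β - ε) * k) v = 2 := by
    intro v
    unfold blev
    split_ifs with h <;> simp
  have hdl : ∀ t, (1 - β - ε) * k < (H.degree t : ℝ) →
      (dlow H (blev H ((1 - β - ε) * k)) 2 t : ℝ) ≤ β * k := by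
    intro t ht
    refine le_trans (le_of_eq ?_) (hh t ht)
    unfold dlow
    congr 1
    congr 1
    ext u
    simp only [mem_filter, hlev1]
  refine ⟨hε, hε1, hkn, ?_, ?_, ?_⟩
  · refine hlog.trans ?_
    apply mul_le_mul_of_nonneg_right _ hk0
    exact pow_le_pow_of_le_one hε.le hε1 (by norm_num)
  · intro t r _ hlt
    have hr : blev H ((1 - β - ε) * k) r = 2 := by
      rcases hlev4 r with h | h
      · rcases hlev4 t with h' | h' <;> omega
      · exact h
    have ht : (1 - β - ε) * k < (H.degree t : ℝ) := by
      rw [← hlev1 t]
      omega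
    refine ⟨hdeg t, ?_⟩
    rw [hr]
    have h1 := hdl t ht
    have h2 : ε * k ≤ (k : ℝ) - dlow H (blev H ((1 - β - ε) * k)) 2 t := by
      have : ε * k ≤ (1 - β) * k := mul_le_mul_of_nonneg_right (by linarith) hk0
      linarith
    calc 2 ^ 160 * Real.log (Fintype.card V) ≤ ε ^ 26 * k := hlog
      _ = ε ^ 25 * (ε * k) := by ring
      _ ≤ _ := mul_le_mul_of_nonneg_left h2 (by positivity)
  · intro r _
    rcases hlev4 r with hr | hr
    · -- level 1
      have e1 : (H.neighborFinset r).filter
          (fun u => blev H ((1 - β - ε) * k) u < blev H ((1 - β - ε) * k) r) = ∅ := by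
        rw [filter_eq_empty_iff]
        intro u _
        rcases hlev4 u with h | h <;> omega
      have e2 : (H.neighborFinset r).filter
          (fun u => blev H ((1 - β - ε) * k) u = blev H ((1 - β - ε) * k) r) =
          (H.neighborFinset r).filter (fun u => (1 - β - ε) * k < (H.degree u : ℝ)) := by
        ext u
        simp only [mem_filter, hr, hlev3]
      rw [e1, sum_empty, zero_add, e2]
      have h3 := hh r ((hlev3 r).1 hr)
      rcases Nat.eq_zero_or_pos k with h0 | h0
      · subst h0
        simp only [Nat.cast_zero, div_zero]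
        linarith
      · have hkp : (0 : ℝ) < k := by exact_mod_cast h0
        rw [div_le_iff₀ hkp]
        have : β * k ≤ (1 - ε) * k := mul_le_mul_of_nonneg_right (by linarith) hk0
        linarith
    · -- level 2
      have hnr : ¬ (1 - β - ε) * k < (H.degree r : ℝ) := (hlev2 r).1 hr
      push Not at hnr
      rcases Nat.eq_zero_or_pos k with h0 | h0
      · have hd0 : H.degree r = 0 := by have := hdeg r; omega
        have hemp : H.neighborFinset r = ∅ := by
          rw [← card_eq_zero, SimpleGraph.card_neighborFinset_eq_degree, hd0]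
        rw [hemp]
        simp only [filter_empty, sum_empty, card_empty, Nat.cast_zero, zero_div, add_zero]
        linarith
      · have hkp : (0 : ℝ) < k := by exact_mod_cast h0
        set A := (H.neighborFinset r).filter
          (fun u => blev H ((1 - β - ε) * k) u < blev H ((1 - β - ε) * k) r) with hA
        set B := (H.neighborFinset r).filter
          (fun u => blev H ((1 - β - ε) * k) u = blev H ((1 - β - ε) * k) r) with hB
        have hcard : A.card + B.card ≤ H.degree r := by
          rw [← SimpleGraph.card_neighborFinset_eq_degree, ← card_union_of_disjoint]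
          · apply card_le_card
            apply union_subset <;> exact filter_subset _ _
          · rw [disjoint_left]
            intro u hu hu'
            have h1 := (mem_filter.1 hu).2
            have h2 := (mem_filter.1 hu').2
            omega
        have hsum : ∑ t ∈ A, 1 / ((k : ℝ) - dlow H (blev H ((1 - β - ε) * k))
            (blev H ((1 - β - ε) * k) r) t) ≤ A.card * (1 / ((1 - β) * k)) := by
          rw [← nsmul_eq_mul]
          apply sum_le_card_nsmul
          intro t ht
          have ht2 := (mem_filter.1 ht).2
          rw [hr] at ht2 ⊢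
          have h1 := hdl t ((hlev1 t).1 ht2)
          apply one_div_le_one_div_of_le (by positivity)
          linarith
        have hcR : (A.card : ℝ) + B.card ≤ (1 - β - ε) * k := by
          have : ((A.card + B.card : ℕ) : ℝ) ≤ H.degree r := by exact_mod_cast hcard
          push_cast at this
          linarith
        have hB2 : (B.card : ℝ) / k ≤ B.card * (1 / ((1 - β) * k)) := by
          rw [div_eq_mul_one_div]
          apply mul_le_mul_of_nonneg_left _ (Nat.cast_nonneg _)
          apply one_div_le_one_div_of_le (by positivity)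
          nlinarith
        calc _ ≤ (A.card : ℝ) * (1 / ((1 - β) * k)) + B.card * (1 / ((1 - β) * k)) :=
              add_le_add hsum hB2
          _ = ((A.card : ℝ) + B.card) * (1 / ((1 - β) * k)) := by ring
          _ ≤ ((1 - β - ε) * k) * (1 / ((1 - β) * k)) :=
              mul_le_mul_of_nonneg_right hcR (by positivity)
          _ = (1 - β - ε) / (1 - β) := by field_simp
          _ ≤ 1 - ε := by
              rw [div_le_iff₀ hβ1]
              nlinarith

end Pool.Agent.Helper21.LQ
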