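import Mathlib
import Pool.Agent.Helper21.LQ.Defs
import Pool.Agent.Helper21.LEH.Basic

set_option autoImplicit false

namespace Pool.Agent.Helper21.LQ

open Finset

variable {V : Type} [Fintype V] [DecidableEq V]

/-- Graphs whose heavy subgraphs are degenerate, lists of size `N` at least the maximum degree. -/
theorem deg_base (G : SimpleGraph V) [DecidableRel G.Adj] (N d : ℕ) (hN : ∀ v, G.degree v ≤ N)
    (h : ∀ (H : SimpleGraph V) [DecidableRel H.Adj], H ≤ G →
      (∀ u v, H.Adj u v → N + 2 ≤ H.degree u + H.degree v) →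
      ∀ W : Finset V, W.Nonempty → ∃ v ∈ W, #(W.filter (H.Adj v)) ≤ d)
    (hΔ : 2 * 10 ^ 24 * d ≤ N ∨ 700 * (d : ℝ) * Real.log N ≤ N)
    (L : Sym2 V → Finset ℕ) (hL : ∀ e ∈ G.edgeSet, N ≤ #(L e)) : LEH.Col G L := by
  classical
  refine LEH.col_of_heavy G N L hL ?_
  intro H _ hHG hheavy
  have hdegH : ∀ v, H.degree v ≤ N := by
    intro v
    refine le_trans ?_ (hN v)
    apply card_le_card
    intro w hw
    rw [SimpleGraph.mem_neighborFinset] at *
    exact hHG hw
  by_cases hedge : ∃ a b, H.Adj a b
  swap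
  · push Not at hedge
    refine ⟨fun _ => 0, ?_, fun u v w huv => absurd huv (hedge u v)⟩
    intro e he
    induction e with
    | _ a b => exact absurd he (hedge a b)
  obtain ⟨a, b, hab⟩ := hedge
  have hΔ2 : 2 ≤ N := by
    have h1 := hheavy a b hab
    have h2 := hdegH a
    have h3 := hdegH b
    omega
  have hdeg := h H hHG hheavy
  have hd : 1 ≤ d := by
    by_contra hcon
    obtain ⟨v, hv, hv2⟩ := hdeg {a, b} ⟨a, by simp⟩
    have h0 : #(({a, b} : Finset V).filter (H.Adj v)) = 0 := by omega
    rw [card_eq_zero, filter_eq_empty_iff] at h0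
    rcases mem_insert.1 hv with rfl | hv
    · exact h0 (show b ∈ ({v, b} : Finset V) by simp) hab
    · rw [mem_singleton] at hv; subst hv
      exact h0 (show a ∈ ({a, v} : Finset V) by simp) hab.symm
  have hP : LEH.PairsOK V d N := by
    rcases hΔ with h1 | h1
    · exact LEH.pairs_linear d _ hd h1
    · refine LEH.pairs_log d _ hd ?_ h1
      by_contra hcon
      have h2 : N = 2 := by omega
      rw [h2] at h1
      have hdr : (1 : ℝ) ≤ d := by exact_mod_cast hd
      have hl2 := Real.log_two_gt_d9
      push_cast at h1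
      nlinarith
  exact LEH.col_of_pairs H d N hP hdeg hdegH L (fun e he => hL e (by
    induction e with
    | _ x y => exact hHG he))

end Pool.Agent.Helper21.LQ
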