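import Mathlib
import Pool.Agent.Helper21.LQ.DEG
import Pool.Agent.Helper21.LQ.BCH
import Pool.Agent.Helper76.LQ.BIP

set_option autoImplicit false

namespace Pool.Agent.Helper21.LQ

open Finset

/-- Part 1 in terms of `G.edgeSet`. -/
theorem fin_ext (hC : ST_CHAIN) (V : Type) [Fintype V] [DecidableEq V] (G : SimpleGraph V)
    [DecidableRel G.Adj] (ε : ℝ) (lev : V → ℕ) (k : ℕ) (h : Chain G ε lev k)
    (L : G.edgeSet → Finset ℕ) (c : G.edgeSet → ℕ)
    (hL : ∀ e : G.edgeSet, (∃ v ∈ (e : Sym2 V), lev v ≠ 0) → k ≤ (L e).card)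
    (hc : ∀ e e' : G.edgeSet, (∀ v ∈ (e : Sym2 V), lev v = 0) → (∀ v ∈ (e' : Sym2 V), lev v = 0) →
      G.lineGraph.Adj e e' → c e ≠ c e') :
    ∃ f : G.edgeSet → ℕ, (∀ e : G.edgeSet, (∀ v ∈ (e : Sym2 V), lev v = 0) → f e = c e) ∧
      (∀ e : G.edgeSet, (∃ v ∈ (e : Sym2 V), lev v ≠ 0) → f e ∈ L e) ∧
      ∀ e e' : G.edgeSet, G.lineGraph.Adj e e' → f e ≠ f e' := by
  classical
  obtain ⟨f, hf0, hf1, hf2⟩ := hC V G ε lev k h
    (fun e => if he : e ∈ G.edgeSet then L ⟨e, he⟩ else ∅)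
    (fun e => if he : e ∈ G.edgeSet then c ⟨e, he⟩ else 0) (by
      intro x y hxy h0
      have he : s(x, y) ∈ G.edgeSet := hxy
      simp only [he, dif_pos]
      apply hL ⟨s(x, y), he⟩
      by_cases hx : lev x = 0
      · exact ⟨y, by simp, fun hy => h0 ⟨hx, hy⟩⟩
      · exact ⟨x, by simp, hx⟩) (by
      intro x y z hx hy hz hxy hxz hyz
      have he : s(x, y) ∈ G.edgeSet := hxy
      have he' : s(x, z) ∈ G.edgeSet := hxz
      simp only [he, he', dif_pos]
      apply hc ⟨s(x, y), he⟩ ⟨s(x, z), he'⟩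
      · intro v hv
        rcases Sym2.mem_iff.1 hv with rfl | rfl <;> assumption
      · intro v hv
        rcases Sym2.mem_iff.1 hv with rfl | rfl <;> assumption
      · rw [SimpleGraph.lineGraph_adj_iff_exists]
        refine ⟨?_, x, by simp, by simp⟩
        intro hh
        have := congrArg Subtype.val hh
        simp only at this
        rw [Sym2.congr_right] at this
        exact hyz this)
  refine ⟨fun e => f e.1, ?_, ?_, ?_⟩
  · rintro ⟨e, he⟩ hlev
    induction e with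
    | _ x y =>
      have := hf0 x y (hlev x (by simp)) (hlev y (by simp)) he
      simpa only [he, dif_pos] using this
  · rintro ⟨e, he⟩ hlev
    induction e with
    | _ x y =>
      have := hf1 x y he (by
        rintro ⟨h1, h2⟩
        obtain ⟨v, hv, hv0⟩ := hlev
        rcases Sym2.mem_iff.1 hv with rfl | rfl
        · exact hv0 h1
        · exact hv0 h2)
      simpa only [he, dif_pos] using this
  · rintro ⟨e, he⟩ ⟨e', he'⟩ hadj
    rw [SimpleGraph.lineGraph_adj_iff_exists] at hadj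
    obtain ⟨hne, x, hx, hx'⟩ := hadj
    obtain ⟨a, rfl⟩ := Sym2.mem_iff_exists.1 hx
    obtain ⟨b, rfl⟩ := Sym2.mem_iff_exists.1 hx'
    have hab : a ≠ b := fun hh => hne (by subst hh; rfl)
    exact hf2 x a b he he' hab

/-- One heavy subgraph: levels and base. -/
theorem fin_heavy (hC : ST_CHAIN) (hGal : ST_GAL) (V : Type) [Fintype V] [DecidableEq V]
    (H : SimpleGraph V) [DecidableRel H.Adj] (lev : V → ℕ) (N : ℕ) (hN : ∀ v, H.degree v ≤ N)
    (hch : (∀ r, lev r = 0) ∨ ∃ ε, Chain H ε lev N)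
    (hb : (∀ L : H.edgeSet → Finset ℕ,
            (∀ e : H.edgeSet, (∀ v ∈ (e : Sym2 V), lev v = 0) → N ≤ (L e).card) →
            ∃ f : H.edgeSet → ℕ, (∀ e : H.edgeSet, (∀ v ∈ (e : Sym2 V), lev v = 0) → f e ∈ L e) ∧
              ∀ e e' : H.edgeSet, (∀ v ∈ (e : Sym2 V), lev v = 0) →
                (∀ v ∈ (e' : Sym2 V), lev v = 0) → H.lineGraph.Adj e e' → f e ≠ f e') ∨
          (∃ A : V → Bool, ∀ x y, H.Adj x y → lev x = 0 → lev y = 0 → A x ≠ A y) ∨
          (∃ d : ℕ, (2 * 10 ^ 24 * d ≤ N ∨ 700 * (d : ℝ) * Real.log N ≤ N) ∧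
            ∀ W : Finset V, W.Nonempty → (∀ v ∈ W, lev v = 0) →
              ∃ v ∈ W, (W.filter (H.Adj v)).card ≤ d))
    (L : Sym2 V → Finset ℕ) (hL : ∀ x y, H.Adj x y → N ≤ (L s(x, y)).card) :
    ∃ c : Sym2 V → ℕ, (∀ x y, H.Adj x y → c s(x, y) ∈ L s(x, y)) ∧
      (∀ x y z, H.Adj x y → H.Adj x z → y ≠ z → c s(x, y) ≠ c s(x, z)) := by
  classical
  have hbase : ∃ c : Sym2 V → ℕ,
      (∀ x y, H.Adj x y → lev x = 0 → lev y = 0 → c s(x, y) ∈ L s(x, y)) ∧
        ∀ x y z, lev x = 0 → lev y = 0 → lev z = 0 → H.Adj x y → H.Adj x z → y ≠ z →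
          c s(x, y) ≠ c s(x, z) := by
    have hd0 : ∀ x, (bip_G H lev).degree x ≤ N := by
      intro x
      refine le_trans ?_ (hN x)
      rw [← SimpleGraph.card_neighborFinset_eq_degree,
        ← SimpleGraph.card_neighborFinset_eq_degree]
      refine card_le_card fun u hu => ?_
      rw [SimpleGraph.mem_neighborFinset] at hu ⊢
      exact hu.1
    rcases hb with hgen | ⟨A, hA⟩ | ⟨d, hd, hdeg⟩
    · obtain ⟨f, hf1, hf2⟩ := hgen (fun e => L e.1) (by
        rintro ⟨e, he⟩ hlev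
        induction e with
        | _ x y => exact hL x y he)
      refine ⟨fun e => if he : e ∈ H.edgeSet then f ⟨e, he⟩ else 0, ?_, ?_⟩
      · intro x y hxy hx hy
        have he : s(x, y) ∈ H.edgeSet := hxy
        simp only [he, dif_pos]
        exact hf1 ⟨s(x, y), he⟩ (fun v hv => by
          rcases Sym2.mem_iff.1 hv with rfl | rfl <;> assumption)
      · intro x y z hx hy hz hxy hxz hyz
        have he : s(x, y) ∈ H.edgeSet := hxy
        have he' : s(x, z) ∈ H.edgeSet := hxz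
        simp only [he, he', dif_pos]
        apply hf2 ⟨s(x, y), he⟩ ⟨s(x, z), he'⟩
        · intro v hv
          rcases Sym2.mem_iff.1 hv with rfl | rfl <;> assumption
        · intro v hv
          rcases Sym2.mem_iff.1 hv with rfl | rfl <;> assumption
        · rw [SimpleGraph.lineGraph_adj_iff_exists]
          refine ⟨?_, x, by simp, by simp⟩
          intro hh
          have := congrArg Subtype.val hh
          simp only at this
          rw [Sym2.congr_right] at this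
          exact hyz this
    · obtain ⟨c₀, h7, h8⟩ := hGal V (bip_G H lev) A N
        (fun x y h => hA x y h.1 h.2.1 h.2.2) hd0 L (fun x y h => hL x y h.1)
      exact ⟨c₀, fun x y h hx hy => h7 x y ⟨h, hx, hy⟩,
        fun x y z hx hy hz hxy hxz hyz => h8 x y z ⟨hxy, hx, hy⟩ ⟨hxz, hx, hz⟩ hyz⟩
    · obtain ⟨c₀, h7, h8⟩ := deg_base (bip_G H lev) N d hd0
        (fun H' _ hH' _ W hW => by
          by_cases hW0 : ∀ v ∈ W, lev v = 0
          · obtain ⟨v, hv, hvd⟩ := hdeg W hW hW0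
            refine ⟨v, hv, le_trans (card_le_card ?_) hvd⟩
            intro u hu
            rw [mem_filter] at hu ⊢
            exact ⟨hu.1, (hH' hu.2).1⟩
          · push Not at hW0
            obtain ⟨v, hv, hv0⟩ := hW0
            refine ⟨v, hv, ?_⟩
            have : W.filter (H'.Adj v) = ∅ := by
              rw [filter_eq_empty_iff]
              intro u _ huv
              exact hv0 (hH' huv).2.1
            rw [this, card_empty]
            exact Nat.zero_le d) hd L (by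
          intro e he
          induction e with
          | _ x y => exact hL x y he.1)
      exact ⟨c₀, fun x y h hx hy => h7 s(x, y) ⟨h, hx, hy⟩,
        fun x y z hx hy hz hxy hxz hyz => h8 x y z ⟨hxy, hx, hy⟩ ⟨hxz, hx, hz⟩ hyz⟩
  obtain ⟨c₀, h1, h2⟩ := hbase
  rcases hch with h0 | ⟨ε, hch⟩
  · exact ⟨c₀, fun x y h => h1 x y h (h0 x) (h0 y),
      fun x y z hxy hxz hyz => h2 x y z (h0 x) (h0 y) (h0 z) hxy hxz hyz⟩
  · obtain ⟨c, h3, h4, h5⟩ := hC V H ε lev N hch L c₀ (fun x y h _ => hL x y h)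
      (fun x y z hx hy hz hxy hxz hyz => h2 x y z hx hy hz hxy hxz hyz)
    refine ⟨c, ?_, h5⟩
    intro x y hxy
    by_cases h0 : lev x = 0 ∧ lev y = 0
    · rw [h3 x y h0.1 h0.2 hxy]
      exact h1 x y hxy h0.1 h0.2
    · exact h4 x y hxy h0

/-- Reduction to heavy subgraphs. -/
theorem fin_red (hT : ST_TOP) (V : Type) [Fintype V] [DecidableEq V] (G : SimpleGraph V)
    [DecidableRel G.Adj]
    (h : ∀ (H : SimpleGraph V) [DecidableRel H.Adj], H ≤ G →
      (∀ x y, H.Adj x y → G.maxDegree + 2 ≤ H.degree x + H.degree y) →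
      (∀ v, H.degree v ≤ G.maxDegree) →
      ∀ L : Sym2 V → Finset ℕ, (∀ x y, H.Adj x y → G.maxDegree ≤ (L s(x, y)).card) →
      ∃ c : Sym2 V → ℕ, (∀ x y, H.Adj x y → c s(x, y) ∈ L s(x, y)) ∧
        (∀ x y z, H.Adj x y → H.Adj x z → y ≠ z → c s(x, y) ≠ c s(x, z))) : LECC G := by
  classical
  apply hT V G
  intro L hL
  obtain ⟨c, h1, h2⟩ := LEH.col_of_heavy G G.maxDegree L (by
    intro e he
    induction e with
    | _ x y => exact hL x y he) (by
    intro H _ hHG hheavy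
    obtain ⟨c, h1, h2⟩ := h H hHG hheavy (fun v => by
      refine le_trans ?_ (G.degree_le_maxDegree v)
      rw [← SimpleGraph.card_neighborFinset_eq_degree,
        ← SimpleGraph.card_neighborFinset_eq_degree]
      refine card_le_card fun u hu => ?_
      rw [SimpleGraph.mem_neighborFinset] at hu ⊢
      exact hHG hu) L (fun x y hxy => hL x y (hHG hxy))
    refine ⟨c, ?_, h2⟩
    intro e he
    induction e with
    | _ x y => exact h1 x y he)
  exact ⟨c, fun x y hxy => h1 s(x, y) hxy, h2⟩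

/-- Extension of precolourings through levels. -/
theorem extension (hC : ST_CHAIN) (V : Type) [Fintype V] [DecidableEq V] (G : SimpleGraph V)
    [DecidableRel G.Adj] (ε : ℝ) (lev : V → ℕ) (k : ℕ) (h1 : 0 < ε) (h2 : ε ≤ 1)
    (h3 : k ≤ Fintype.card V)
    (h4 : (∃ r, lev r ≠ 0) → 2 ^ 160 * Real.log (Fintype.card V) ≤ ε ^ 25 * k)
    (h5 : ∀ t r, G.Adj t r → lev t < lev r → G.degree t ≤ k ∧
      2 ^ 160 * Real.log (Fintype.card V) ≤
        ε ^ 25 * ((k : ℝ) - ((G.neighborFinset t).filter (fun u => lev u < lev r)).card))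
    (h6 : ∀ r, 0 < lev r → ∑ t ∈ (G.neighborFinset r).filter (fun u => lev u < lev r),
        1 / ((k : ℝ) - ((G.neighborFinset t).filter (fun u => lev u < lev r)).card) +
      (((G.neighborFinset r).filter (fun u => lev u = lev r)).card : ℝ) / k ≤ 1 - ε)
    (L : G.edgeSet → Finset ℕ) (c : G.edgeSet → ℕ)
    (hL : ∀ e : G.edgeSet, (∃ v ∈ (e : Sym2 V), lev v ≠ 0) → k ≤ (L e).card)
    (hc : ∀ e e' : G.edgeSet, (∀ v ∈ (e : Sym2 V), lev v = 0) →
      (∀ v ∈ (e' : Sym2 V), lev v = 0) → G.lineGraph.Adj e e' → c e ≠ c e') :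
    ∃ f : G.edgeSet → ℕ, (∀ e : G.edgeSet, (∀ v ∈ (e : Sym2 V), lev v = 0) → f e = c e) ∧
      (∀ e : G.edgeSet, (∃ v ∈ (e : Sym2 V), lev v ≠ 0) → f e ∈ L e) ∧
      ∀ e e' : G.edgeSet, G.lineGraph.Adj e e' → f e ≠ f e' := by
  by_cases hex : ∃ r, lev r ≠ 0
  · exact fin_ext hC V G ε lev k ⟨h1, h2, h3, h4 hex, h5, h6⟩ L c hL hc
  · push Not at hex
    exact ⟨c, fun _ _ => rfl, fun e he => by
      obtain ⟨v, _, hv⟩ := he
      exact absurd (hex v) hv, fun e e' h => hc e e' (fun v _ => hex v) (fun v _ => hex v) h⟩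

theorem maxDegree_le_card' (V : Type) [Fintype V] [DecidableEq V] (G : SimpleGraph V)
    [DecidableRel G.Adj] : G.maxDegree ≤ Fintype.card V := by
  apply G.maxDegree_le_of_forall_degree_le
  intro v
  exact (G.degree_lt_card_verts v).le

/-- The conjecture for graphs whose heavy subgraphs have levels. -/
theorem layered (hC : ST_CHAIN) (hGal : ST_GAL) (hT : ST_TOP) (V : Type) [Fintype V]
    [DecidableEq V] (G : SimpleGraph V) [DecidableRel G.Adj]
    (hG : ∀ (H : SimpleGraph V) [DecidableRel H.Adj], H ≤ G →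
      (∀ x y, H.Adj x y → G.maxDegree + 2 ≤ H.degree x + H.degree y) →
      ∃ (ε : ℝ) (lev : V → ℕ), 0 < ε ∧ ε ≤ 1 ∧
        ((∃ r, lev r ≠ 0) →
          2 ^ 160 * Real.log (Fintype.card V) ≤ ε ^ 25 * G.maxDegree) ∧
        (∀ t r, H.Adj t r → lev t < lev r →
          2 ^ 160 * Real.log (Fintype.card V) ≤ ε ^ 25 * ((G.maxDegree : ℝ) -
            ((H.neighborFinset t).filter (fun u => lev u < lev r)).card)) ∧
        (∀ r, 0 < lev r → ∑ t ∈ (H.neighborFinset r).filter (fun u => lev u < lev r),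
            1 / ((G.maxDegree : ℝ) -
              ((H.neighborFinset t).filter (fun u => lev u < lev r)).card) +
          (((H.neighborFinset r).filter (fun u => lev u = lev r)).card : ℝ) / G.maxDegree ≤
            1 - ε) ∧
        ((∀ L : H.edgeSet → Finset ℕ,
            (∀ e : H.edgeSet, (∀ v ∈ (e : Sym2 V), lev v = 0) → G.maxDegree ≤ (L e).card) →
            ∃ f : H.edgeSet → ℕ,
              (∀ e : H.edgeSet, (∀ v ∈ (e : Sym2 V), lev v = 0) → f e ∈ L e) ∧
              ∀ e e' : H.edgeSet, (∀ v ∈ (e : Sym2 V), lev v = 0) →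
                (∀ v ∈ (e' : Sym2 V), lev v = 0) → H.lineGraph.Adj e e' → f e ≠ f e') ∨
          (∃ A : V → Bool, ∀ x y, H.Adj x y → lev x = 0 → lev y = 0 → A x ≠ A y) ∨
          (∃ d : ℕ, (2 * 10 ^ 24 * d ≤ G.maxDegree ∨
              700 * (d : ℝ) * Real.log G.maxDegree ≤ G.maxDegree) ∧
            ∀ W : Finset V, W.Nonempty → (∀ v ∈ W, lev v = 0) →
              ∃ v ∈ W, (W.filter (H.Adj v)).card ≤ d))) : LECC G := by
  classical
  refine fin_red hT V G ?_
  intro H _ hHG hheavy hdeg L hL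
  obtain ⟨ε, lev, h1, h2, h3, h4, h5, h6⟩ := hG H hHG hheavy
  refine fin_heavy hC hGal V H lev G.maxDegree hdeg ?_ h6 L hL
  by_cases hex : ∃ r, lev r ≠ 0
  · exact Or.inr ⟨ε, h1, h2, maxDegree_le_card' V G, h3 hex,
      fun t r htr hlt => ⟨hdeg t, h4 t r htr hlt⟩, h5⟩
  · push Not at hex
    exact Or.inl hex

/-- The conjecture for graphs whose vertices of nearly maximum degree are sparse. -/
theorem sparse_heavy (hC : ST_CHAIN) (hGal : ST_GAL) (hT : ST_TOP) (V : Type) [Fintype V]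
    [DecidableEq V] (G : SimpleGraph V) [DecidableRel G.Adj] (ε β : ℝ) (h1 : 0 < ε) (h2 : 0 ≤ β)
    (h3 : β + ε ≤ 1) (h4 : 2 ^ 160 * Real.log (Fintype.card V) ≤ ε ^ 26 * G.maxDegree)
    (h5 : ∀ (H : SimpleGraph V) [DecidableRel H.Adj], H ≤ G →
      (∀ x y, H.Adj x y → G.maxDegree + 2 ≤ H.degree x + H.degree y) →
      ∀ v, (1 - β - ε) * G.maxDegree < H.degree v →
        (((H.neighborFinset v).filter
          (fun u => (1 - β - ε) * G.maxDegree < (H.degree u : ℝ))).card : ℝ) ≤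
          β * G.maxDegree) : LECC G := by
  classical
  refine fin_red hT V G ?_
  intro H _ hHG hheavy hdeg L hL
  refine fin_heavy hC hGal V H (blev H ((1 - β - ε) * G.maxDegree)) G.maxDegree hdeg
    (Or.inr ⟨ε, blev_chain H ε β G.maxDegree h1 h2 h3 (maxDegree_le_card' V G) hdeg h4
      (h5 H hHG hheavy)⟩) (Or.inr (Or.inl ⟨fun _ => true, ?_⟩)) L hL
  intro x y _ hx _
  exfalso
  unfold blev at hx
  split_ifs at hx

end Pool.Agent.Helper21.LQ
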