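import Mathlib
import Pool.Agent.Helper21.LQ.FIN
import Pool.Agent.Helper50.LQ.BIL
import Pool.Agent.Helper76.LQ.BIP
import Pool.Agent.Helper76.LQ.CHAIN
import Pool.Agent.Helper19.LQ.CORE
import Pool.Agent.Helper50.LQ.DISC
import Pool.Agent.Helper76.LQ.EXPM
import Pool.Agent.Helper11.LQ.EXT
import Pool.Agent.Helper95.LQ.FLOW
import Pool.Agent.Helper59.LQ.GAL
import Pool.Agent.Helper76.LQ.LIN
import Pool.Agent.Helper91.LQ.MAIN
import Pool.Agent.Helper7.LQ.PART
import Pool.Agent.Helper44.LQ.PHASE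
import Pool.Agent.Helper59.LQ.PRE
import Pool.Agent.Helper95.LQ.PROC
import Pool.Agent.Helper56.LQ.PSTEP
import Pool.Agent.Helper76.LQ.RLIN
import Pool.Agent.Helper37.LQ.RST
import Pool.Agent.Helper85.LQ.RSTEP
import Pool.Agent.Helper99.LQ.STAR
import Pool.Agent.Helper63.LQ.TMAIN
import Pool.Agent.Helper76.LQ.TOP
import Pool.Agent.Helper78.LQ.TPRE
import Pool.Agent.Helper44.LQ.TST

set_option autoImplicit false

namespace Pool.Agent.Helper21.LQ

theorem all_EXT : ST_EXT := by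
  have hRL := st_RLIN st_EXPM
  have hPST := st_PSTEP (st_LIN hRL) (st_BIL st_EXPM)
  have hPH := st_PHASE st_PROC hPST
  have hTST := st_TST (st_TPRE hPH (st_PRE st_PART))
    (st_TMAIN hPH (st_MAIN st_FLOW st_STAR st_DISC st_PART))
  exact st_EXT (st_CORE hTST (st_RST st_PROC (st_RSTEP hRL)))

theorem all_CHAIN : ST_CHAIN := st_CHAIN all_EXT

end Pool.Agent.Helper21.LQ
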